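import Mathlib

/-!
# The first Grigorchuk group: definitions

The rooted binary tree has as vertices the finite words over {0,1}, i.e. `List Bool`
(`false` is the letter 0 and `true` is the letter 1, the root is the empty word).
-/

namespace Pool.Agent.Work.MP_bbfbdc_al

/-- The map `a`: `a(x w) = (not x) w`. -/
def aFun : List Bool → List Bool
  | [] => []
  | x :: w => (!x) :: w

mutual
/-- The map `b`: `b(0 w) = 0 a(w)`, `b(1 w) = 1 c(w)`. -/
def bFun : List Bool → List Bool
  | [] => []
  | false :: w => false :: aFun w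
  | true :: w => true :: cFun w
/-- The map `c`: `c(0 w) = 0 a(w)`, `c(1 w) = 1 d(w)`. -/
def cFun : List Bool → List Bool
  | [] => []
  | false :: w => false :: aFun w
  | true :: w => true :: dFun w
/-- The map `d`: `d(0 w) = 0 w`, `d(1 w) = 1 b(w)`. -/
def dFun : List Bool → List Bool
  | [] => []
  | false :: w => false :: w
  | true :: w => true :: bFun w
end

theorem aFun_aFun : ∀ v : List Bool, aFun (aFun v) = v
  | [] => rfl
  | x :: w => by cases x <;> rfl

theorem bcd_invol : ∀ v : List Bool,
    bFun (bFun v) = v ∧ cFun (cFun v) = v ∧ dFun (dFun v) = v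
  | [] => by simp [bFun, cFun, dFun]
  | x :: w => by
      obtain ⟨h1, h2, h3⟩ := bcd_invol w
      cases x <;> simp [bFun, cFun, dFun, aFun_aFun, h1, h2, h3]

/-- The generator `a`, as a permutation of the vertices of the tree. -/
def genA : Equiv.Perm (List Bool) := ⟨aFun, aFun, aFun_aFun, aFun_aFun⟩
/-- The generator `b`. -/
def genB : Equiv.Perm (List Bool) :=
  ⟨bFun, bFun, fun v => (bcd_invol v).1, fun v => (bcd_invol v).1⟩
/-- The generator `c`. -/
def genC : Equiv.Perm (List Bool) :=
  ⟨cFun, cFun, fun v => (bcd_invol v).2.1, fun v => (bcd_invol v).2.1⟩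
/-- The generator `d`. -/
def genD : Equiv.Perm (List Bool) :=
  ⟨dFun, dFun, fun v => (bcd_invol v).2.2, fun v => (bcd_invol v).2.2⟩

/-- The four standard generators. -/
def gens : Set (Equiv.Perm (List Bool)) := {genA, genB, genC, genD}

/-- The first Grigorchuk group, generated by `a, b, c, d`. -/
def Grig : Subgroup (Equiv.Perm (List Bool)) := Subgroup.closure gens

/-- `|g|`: the length of a shortest word in the letters `a, b, c, d` representing `g`. -/
noncomputable def wordLength (g : Equiv.Perm (List Bool)) : ℕ :=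
  sInf {n | ∃ l : List (Equiv.Perm (List Bool)), (∀ s ∈ l, s ∈ gens) ∧ l.prod = g ∧ l.length = n}

/-- The spherical growth function `n ↦ #{g ∈ G : |g| = n}`. -/
noncomputable def sphGrowth (n : ℕ) : ℕ :=
  Set.ncard {g : Equiv.Perm (List Bool) | g ∈ Grig ∧ wordLength g = n}

end Pool.Agent.Work.MP_bbfbdc_al
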