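import Pool.Agent.Work.MP_bbfbdc_al.Spheres

/-! The final statement. -/

namespace Pool.Agent.Work.MP_bbfbdc_al

open Filter

/-- Rational weights with contraction factor `811/1000`. -/
noncomputable def theWeights : Weights where
  W := fun g => match g with
    | .a => 4675
    | .b => 5325
    | .c => 3430
    | .d => 1895
  η := 811 / 1000
  pos := by intro g; cases g <;> norm_num
  hη := by norm_num
  hb := by norm_num
  hc := by norm_num
  hd := by norm_num
  tb := by norm_num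
  tc := by norm_num
  td := by norm_num

theorem numeric : 2 * ((811 / 1000 : ℝ) / 2) ^ (10 / 13 : ℝ) < 1 := by
  have h0 : (0:ℝ) ≤ (811 / 1000 : ℝ) / 2 := by norm_num
  have h1 : (2 * ((811 / 1000 : ℝ) / 2) ^ (10 / 13 : ℝ)) ^ 13 < 1 ^ 13 := by
    rw [mul_pow, ← Real.rpow_natCast (((811 / 1000 : ℝ) / 2) ^ (10 / 13 : ℝ)) 13,
      ← Real.rpow_mul h0]
    have : (10 / 13 : ℝ) * ((13 : ℕ) : ℝ) = ((10 : ℕ) : ℝ) := by norm_num
    rw [this, Real.rpow_natCast]
    norm_num
  exact lt_of_pow_lt_pow_left₀ 13 (by norm_num) h1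

theorem gam_upper : ∃ K : ℝ, 0 < K ∧ ∀ n : ℕ,
    (gam n : ℝ) ≤ Real.exp (K * (5325 * n + 1) ^ (10 / 13 : ℝ)) := by
  obtain ⟨K, hK, h⟩ := upper_of_rec theWeights.N (fun _ _ h => theWeights.N_mono h)
    (fun _ h => theWeights.N_pos h) (811 / 1000) 4675 (by norm_num) (by norm_num) (by norm_num)
    (fun x => theWeights.N_rec x _ rfl) (10 / 13) (by norm_num) (by norm_num) numeric
  refine ⟨K, hK, fun n => ?_⟩
  have h1 : gam n ≤ theWeights.N (5325 * n) :=
    gam_le_N theWeights 5325 (by intro g; cases g <;> norm_num [theWeights]) n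
  have h2 := h (5325 * n) (by positivity)
  have h3 : (gam n : ℝ) ≤ theWeights.N (5325 * n) := by exact_mod_cast h1
  exact h3.trans h2

theorem sph_eventually : ∀ᶠ k : ℕ in atTop,
    Real.exp ((k:ℝ) ^ (23 / 100 : ℝ)) ≤ sphGrowth k := by
  obtain ⟨K, hK, hup⟩ := gam_upper
  obtain ⟨c, hc, n1, hlow⟩ := gam_lower
  exact spheres_large (s := sphGrowth) (γ := gam) sph_sub gam_eq_sum hc hlow hK
    (W := 5325) (by norm_num) (β := 10 / 13) (by norm_num) hup (θ := 7695 / 10000)
    (by norm_num) (by norm_num) (by norm_num)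

theorem sph_pos (m : ℕ) : 1 ≤ sphGrowth m := by
  obtain ⟨N, hN⟩ := eventually_atTop.mp sph_eventually
  have h1 := hN (m + N) (by omega)
  have h2 : 0 < sphGrowth (m + N) := by
    have : (0:ℝ) < sphGrowth (m + N) := lt_of_lt_of_le (Real.exp_pos _) h1
    exact_mod_cast this
  have h3 := sph_sub m N
  by_contra h4
  have h5 : sphGrowth m = 0 := by omega
  rw [h5] at h3
  omega

theorem main : ∃ C : ℕ, 0 < C ∧ ∀ n : ℕ,
    Real.exp ((n:ℝ) ^ (23 / 100 : ℝ)) ≤ sphGrowth (C * n) := by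
  obtain ⟨N, hN⟩ := eventually_atTop.mp sph_eventually
  refine ⟨N + 1, Nat.succ_pos _, fun n => ?_⟩
  rcases Nat.eq_zero_or_pos n with rfl | hn
  · have h1 := sph_pos ((N + 1) * 0)
    have h2 : ((0:ℕ):ℝ) ^ (23 / 100 : ℝ) = 0 := by
      rw [Nat.cast_zero]; exact Real.zero_rpow (by norm_num)
    rw [h2, Real.exp_zero]
    exact_mod_cast h1
  · refine le_trans ?_ (hN ((N + 1) * n) ?_)
    · apply Real.exp_le_exp.mpr
      refine Real.rpow_le_rpow (Nat.cast_nonneg _) ?_ (by norm_num)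
      exact_mod_cast Nat.le_mul_of_pos_left n (Nat.succ_pos N)
    · have : (N + 1) * 1 ≤ (N + 1) * n := Nat.mul_le_mul_left _ hn
      omega

end Pool.Agent.Work.MP_bbfbdc_al
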