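import Pool.Agent.Work.MP_bbfbdc_al.Words

/-! Lower bound `exp (c sqrt n)` for the ball growth. -/

namespace Pool.Agent.Work.MP_bbfbdc_al

/-- The substitution `σ`. -/
def sigG : Gen → List Gen
  | .a => [.a, .c, .a]
  | .b => [.d]
  | .c => [.b]
  | .d => [.c]

def sig : List Gen → List Gen
  | [] => []
  | g :: l => sigG g ++ sig l

/-- The other section of `σ`. -/
def thG : Gen → List Gen
  | .a => [.d]
  | .b => []
  | .c => [.a]
  | .d => [.a]

def th : List Gen → List Gen
  | [] => []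
  | g :: l => thG g ++ th l

theorem par_sig (l : List Gen) : par (sig l) = false := by
  induction l with
  | nil => rfl
  | cons g l ih => cases g <;> simp [sig, sigG, par, ih]

theorem sec_sig_true (l : List Gen) : sec (sig l) true = l := by
  induction l with
  | nil => rfl
  | cons g l ih => cases g <;> simp [sig, sigG, par, sec, secG, ih, par_sig]

theorem sec_sig_false (l : List Gen) : sec (sig l) false = th l := by
  induction l with
  | nil => rfl
  | cons g l ih => cases g <;> simp [sig, sigG, par, sec, secG, ih, par_sig, th, thG]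

/-- The word combining two words. -/
def Phi (l m : List Gen) : List Gen := sig m ++ (.a :: (sig l ++ [.a]))

theorem sec_Phi_true (l m : List Gen) : sec (Phi l m) true = m ++ th l := by
  simp [Phi, sec_append, sec, secG, par, par_append, par_sig, sec_sig_true, sec_sig_false]

theorem sec_Phi_false (l m : List Gen) : sec (Phi l m) false = th m ++ l := by
  simp [Phi, sec_append, sec, secG, par, par_append, par_sig, sec_sig_true, sec_sig_false]

/-- Unweighted balls. -/
def uball (n : ℕ) : Set (Equiv.Perm (List Bool)) := {g | ∃ l, ev l = g ∧ l.length ≤ n}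

theorem uball_finite (n : ℕ) : (uball n).Finite := by
  have h1 : {l : List Gen | l.length ≤ n}.Finite := List.finite_length_le Gen n
  refine (h1.image ev).subset ?_
  rintro g ⟨l, hl, hx⟩
  exact ⟨l, hx, hl⟩

theorem uball_mono {m n : ℕ} (h : m ≤ n) : uball m ⊆ uball n := by
  rintro g ⟨l, hl, hx⟩
  exact ⟨l, hl, hx.trans h⟩

/-- Ball growth. -/
noncomputable def gam (n : ℕ) : ℕ := (uball n).ncard

theorem gam_mono {m n : ℕ} (h : m ≤ n) : gam m ≤ gam n :=
  Set.ncard_le_ncard (uball_mono h) (uball_finite n)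

theorem gam_pos (n : ℕ) : 1 ≤ gam n :=
  (Set.ncard_pos (uball_finite n)).mpr ⟨1, [], rfl, by simp⟩

theorem length_push (g : Gen) (l : List Gen) : (push g l).length ≤ l.length + 1 := by
  cases l with
  | nil => simp [push]
  | cons h l =>
    simp only [push]
    split_ifs with h1 h2
    · simp; omega
    · simp
    · simp

theorem length_nf (l : List Gen) : (nf l).length ≤ l.length := by
  induction l with
  | nil => simp [nf]
  | cons g l ih =>
    have := length_push g (nf l)
    simp only [nf, List.length_cons]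
    omega

/-- Twice the number of letters `a` of an alternating word is at most its length plus one. -/
theorem length_sig (l : List Gen) (hl : Alt l) :
    (sig l).length ≤ 2 * l.length + 1 ∧
      (∀ g m, l = g :: m → g ≠ .a → (sig l).length ≤ 2 * l.length) := by
  induction l with
  | nil =>
    refine ⟨by simp [sig], fun g m hm => by simp at hm⟩
  | cons g l ih =>
    obtain ⟨h1, h2⟩ := ih hl.tail
    by_cases hg : g = .a
    · subst hg
      refine ⟨?_, fun g m hm hga => absurd (List.cons_eq_cons.mp hm).1.symm hga⟩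
      cases l with
      | nil => simp [sig, sigG]
      | cons h l =>
        have h3 : h ≠ .a := hl.1.mp rfl
        have h4 := h2 h l rfl h3
        simp only [sig, sigG, List.length_append, List.length_cons, List.length_nil] at h4 ⊢
        omega
    · have h3 : (sigG g).length = 1 := by
        cases g <;> simp [sigG] at hg ⊢
      have h4 : (sig (g :: l)).length ≤ 2 * (g :: l).length := by
        simp only [sig, List.length_append, List.length_cons, h3]
        omega
      exact ⟨by omega, fun _ _ _ _ => h4⟩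

/-- The finite dihedral group generated by `a, d`. -/
def Tset : Set (Equiv.Perm (List Bool)) := {g | ∃ l : List Gen, (∀ x ∈ l, x = .a ∨ x = .d) ∧ ev l = g}

theorem ev_b (l : List Gen) (hl : ∀ x ∈ l, x = Gen.b) : ev l = 1 ∨ ev l = genB := by
  induction l with
  | nil => left; rfl
  | cons g l ih =>
    have hg : g = .b := hl g (by simp)
    subst hg
    rcases ih (fun x hx => hl x (by simp [hx])) with h | h
    · right; rw [ev_cons, h, mul_one]; rfl
    · left; rw [ev_cons, h]; exact toPerm_mul_self .b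

theorem sec_ad (l : List Gen) (hl : ∀ x ∈ l, x = Gen.a ∨ x = Gen.d) (i : Bool) :
    ∀ x ∈ sec l i, x = Gen.b := by
  induction l with
  | nil => simp [sec]
  | cons g l ih =>
    intro x hx
    rw [sec, List.mem_append] at hx
    rcases hx with hx | hx
    · rcases hl g (by simp) with rfl | rfl
      · simp [secG] at hx
      · cases h : (xor (par l) i) <;> rw [h] at hx <;> simp [secG] at hx
        exact hx
    · exact ih (fun y hy => hl y (by simp [hy])) x hx

theorem Tset_finite : Tset.Finite := by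
  classical
  have hw : ∀ g ∈ Tset, ∃ l : List Gen, (∀ x ∈ l, x = .a ∨ x = .d) ∧ ev l = g := fun g hg => hg
  choose! w hw1 hw2 using hw
  let f : Equiv.Perm (List Bool) → Bool × (Equiv.Perm (List Bool) × Equiv.Perm (List Bool)) :=
    fun g => (par (w g), (ev (sec (w g) false), ev (sec (w g) true)))
  have hfin : ((Set.univ : Set Bool) ×ˢ (({1, genB} : Set (Equiv.Perm (List Bool))) ×ˢ
      ({1, genB} : Set (Equiv.Perm (List Bool))))).Finite :=
    Set.finite_univ.prod ((Set.toFinite _).prod (Set.toFinite _))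
  refine Set.Finite.of_injOn (f := f) ?_ ?_ hfin
  · intro g hg
    refine ⟨trivial, ?_, ?_⟩
    · exact ev_b _ (sec_ad _ (hw1 g hg) false)
    · exact ev_b _ (sec_ad _ (hw1 g hg) true)
  · intro g hg g' hg' hfg
    simp only [f, Prod.mk.injEq] at hfg
    rw [← hw2 g hg, ← hw2 g' hg']
    exact ev_ext hfg.1 hfg.2.1 hfg.2.2

theorem th_mem (l : List Gen) : ev (th l) ∈ Tset := by
  refine ⟨th l, ?_, rfl⟩
  induction l with
  | nil => simp [th]
  | cons g l ih =>
    intro x hx
    rw [th, List.mem_append] at hx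
    rcases hx with hx | hx
    · cases g <;> simp [thG] at hx <;> simp [hx]
    · exact ih x hx

/-- Doubling inequality for the ball growth. -/
theorem gam_double (n : ℕ) : gam n ^ 2 ≤ gam (4 * n + 4) * Tset.ncard ^ 2 := by
  classical
  have hw : ∀ g ∈ uball n, ∃ l, ev l = g ∧ l.length ≤ n ∧ Alt l := by
    rintro g ⟨l, hl, hx⟩
    exact ⟨nf l, by rw [ev_nf, hl], (length_nf l).trans hx, alt_nf l⟩
  choose! w hw1 hw2 hw3 using hw
  let f : Equiv.Perm (List Bool) × Equiv.Perm (List Bool) →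
      Equiv.Perm (List Bool) × (Equiv.Perm (List Bool) × Equiv.Perm (List Bool)) :=
    fun p => (ev (Phi (w p.1) (w p.2)), (ev (th (w p.1)), ev (th (w p.2))))
  have hmaps : Set.MapsTo f (uball n ×ˢ uball n) (uball (4 * n + 4) ×ˢ (Tset ×ˢ Tset)) := by
    rintro ⟨g, h⟩ ⟨hg, hh⟩
    refine ⟨⟨_, rfl, ?_⟩, th_mem _, th_mem _⟩
    have h1 := (length_sig _ (hw3 g hg)).1
    have h2 := (length_sig _ (hw3 h hh)).1
    have h3 := hw2 g hg
    have h4 := hw2 h hh
    simp only [Phi, List.length_append, List.length_cons, List.length_nil]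
    omega
  have hinj : Set.InjOn f (uball n ×ˢ uball n) := by
    rintro ⟨g, h⟩ ⟨hg, hh⟩ ⟨g', h'⟩ ⟨hg', hh'⟩ hf
    simp only [f, Prod.mk.injEq] at hf hg hh hg' hh'
    obtain ⟨e1, e2, e3⟩ := hf
    have s1 := sec_eq_of_ev_eq e1 true
    have s2 := sec_eq_of_ev_eq e1 false
    rw [sec_Phi_true, sec_Phi_true, ev_append, ev_append, e2] at s1
    rw [sec_Phi_false, sec_Phi_false, ev_append, ev_append, e3] at s2
    have s1' := mul_right_cancel s1
    have s2' := mul_left_cancel s2
    rw [hw1 h hh, hw1 h' hh'] at s1'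
    rw [hw1 g hg, hw1 g' hg'] at s2'
    rw [s1', s2']
  have hfin : (uball (4 * n + 4) ×ˢ (Tset ×ˢ Tset)).Finite :=
    (uball_finite _).prod (Tset_finite.prod Tset_finite)
  have := Set.ncard_le_ncard_of_injOn f hmaps hinj hfin
  rw [Set.ncard_prod, Set.ncard_prod, Set.ncard_prod] at this
  rw [sq, sq]
  exact this

/-- The set of all elements given by words. -/
def allW : Set (Equiv.Perm (List Bool)) := Set.range ev

theorem allW_infinite : allW.Infinite := by
  intro hfin
  have : Finite allW := hfin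
  have hw : ∀ g : allW, ∃ l, ev l = g.1 := fun g => g.2
  choose w hw using hw
  let f : allW → allW := fun g => ⟨ev (sig (w g)), ⟨_, rfl⟩⟩
  have hinj : Function.Injective f := by
    intro g g' h
    have h1 : ev (sig (w g)) = ev (sig (w g')) := congrArg Subtype.val h
    have h2 := sec_eq_of_ev_eq h1 true
    rw [sec_sig_true, sec_sig_true, hw, hw] at h2
    exact Subtype.ext h2
  have hsurj := Finite.surjective_of_injective hinj
  obtain ⟨g, hg⟩ := hsurj ⟨ev [.a], ⟨_, rfl⟩⟩
  have h1 : ev (sig (w g)) = ev [.a] := congrArg Subtype.val hg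
  have h2 := par_eq_of_ev_eq h1
  rw [par_sig] at h2
  simp [par] at h2

theorem gam_unbounded (k : ℕ) : ∃ n, k ≤ gam n := by
  classical
  obtain ⟨t, ht, htf, htc⟩ := allW_infinite.exists_subset_ncard_eq k
  have hw : ∀ g ∈ t, ∃ n, g ∈ uball n := by
    intro g hg
    obtain ⟨l, hl⟩ := ht hg
    exact ⟨l.length, l, hl, le_rfl⟩
  choose! N hN using hw
  refine ⟨htf.toFinset.sup N, ?_⟩
  rw [← htc]
  refine Set.ncard_le_ncard ?_ (uball_finite _)
  intro g hg
  exact uball_mono (Finset.le_sup (f := N) (htf.mem_toFinset.mpr hg)) (hN g hg)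

theorem gam_lower : ∃ c : ℝ, 0 < c ∧ ∃ n1 : ℕ, ∀ n : ℕ, n1 ≤ n →
    Real.exp (c * Real.sqrt n) ≤ gam n := by
  set M := Tset.ncard with hM
  have hM1 : 1 ≤ M := (Set.ncard_pos Tset_finite).mpr ⟨1, [], by simp, rfl⟩
  obtain ⟨n0, hn0⟩ := gam_unbounded (3 * M ^ 2)
  let s : ℕ → ℕ := fun i => Nat.rec n0 (fun _ x => 4 * x + 4) i
  have hs0 : s 0 = n0 := rfl
  have hs : ∀ i, s (i + 1) = 4 * s i + 4 := fun i => rfl
  have hs1 : ∀ i, s i + 2 ≤ 4 ^ i * (n0 + 2) := by
    intro i
    induction i with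
    | zero => simp [hs0]
    | succ i ih => rw [hs, pow_succ]; nlinarith
  have hs2 : ∀ i, M ^ 2 * 3 ^ (2 ^ i) ≤ gam (s i) := by
    intro i
    induction i with
    | zero => rw [hs0]; simpa [mul_comm] using hn0
    | succ i ih =>
      have h1 := gam_double (s i)
      rw [← hs, ← hM] at h1
      have h2 : (M ^ 2 * 3 ^ 2 ^ i) ^ 2 ≤ gam (s (i + 1)) * M ^ 2 :=
        (Nat.pow_le_pow_left ih 2).trans h1
      have h3 : (M ^ 2 * 3 ^ 2 ^ i) ^ 2 = (M ^ 2 * 3 ^ (2 ^ (i + 1))) * M ^ 2 := by
        rw [mul_pow, ← pow_mul 3, pow_succ 2 i]; ring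
      rw [h3] at h2
      exact Nat.le_of_mul_le_mul_right h2 (by positivity)
  have hc0 : (0:ℝ) < (n0 : ℝ) + 2 := by positivity
  refine ⟨1 / (2 * Real.sqrt (n0 + 2)), by positivity, n0 + 2, fun n hn => ?_⟩
  obtain ⟨i, hi1, hi2⟩ : ∃ i : ℕ, 4 ^ i * (n0 + 2) ≤ n ∧ n < 4 ^ (i + 1) * (n0 + 2) := by
    have hq : n / (n0 + 2) ≠ 0 := by
      have := Nat.div_pos hn (by omega)
      omega
    refine ⟨Nat.log 4 (n / (n0 + 2)), ?_, ?_⟩
    · exact (Nat.le_div_iff_mul_le (by omega)).mp (Nat.pow_log_le_self 4 hq)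
    · have := Nat.lt_pow_succ_log_self (b := 4) (by norm_num) (n / (n0 + 2))
      exact (Nat.div_lt_iff_lt_mul (by omega)).mp this
  have h1 : gam (s i) ≤ gam n := gam_mono (by have := hs1 i; omega)
  have h2 : 3 ^ (2 ^ i) ≤ gam n := by
    refine le_trans ?_ ((hs2 i).trans h1)
    exact Nat.le_mul_of_pos_left _ (by positivity)
  have h3 : Real.exp ((2:ℝ) ^ i) ≤ (3:ℝ) ^ (2 ^ i) := by
    have h4 : Real.exp 1 ≤ 3 := by
      have := Real.exp_one_lt_d9
      linarith
    have h5 : Real.exp ((2:ℝ) ^ i) = Real.exp 1 ^ (2 ^ i) := by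
      rw [← Real.exp_nat_mul]; push_cast; ring_nf
    rw [h5]
    exact pow_le_pow_left₀ (Real.exp_pos _).le h4 _
  have h6 : Real.sqrt n ≤ 2 ^ (i + 1) * Real.sqrt (n0 + 2) := by
    have h7 : (n : ℝ) ≤ (2 ^ (i + 1)) ^ 2 * ((n0:ℝ) + 2) := by
      have h8 : (n : ℝ) < 4 ^ (i + 1) * ((n0:ℝ) + 2) := by exact_mod_cast hi2
      have h9 : ((2:ℝ) ^ (i + 1)) ^ 2 = 4 ^ (i + 1) := by
        rw [← pow_mul, mul_comm, pow_mul]; norm_num
      rw [h9]; exact h8.le
    calc Real.sqrt n ≤ Real.sqrt ((2 ^ (i + 1)) ^ 2 * ((n0:ℝ) + 2)) := Real.sqrt_le_sqrt h7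
      _ = 2 ^ (i + 1) * Real.sqrt (n0 + 2) := by
        rw [Real.sqrt_mul (by positivity), Real.sqrt_sq (by positivity)]
  have hsq : 0 < Real.sqrt (n0 + 2) := Real.sqrt_pos.mpr hc0
  have h10 : 1 / (2 * Real.sqrt (n0 + 2)) * Real.sqrt n ≤ (2:ℝ) ^ i := by
    rw [div_mul_eq_mul_div, one_mul, div_le_iff₀ (by positivity)]
    calc Real.sqrt n ≤ 2 ^ (i + 1) * Real.sqrt (n0 + 2) := h6
      _ = 2 ^ i * (2 * Real.sqrt (n0 + 2)) := by rw [pow_succ]; ring
  calc Real.exp (1 / (2 * Real.sqrt (n0 + 2)) * Real.sqrt n) ≤ Real.exp ((2:ℝ) ^ i) :=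
        Real.exp_le_exp.mpr h10
    _ ≤ (3:ℝ) ^ (2 ^ i) := h3
    _ ≤ gam n := by exact_mod_cast h2

end Pool.Agent.Work.MP_bbfbdc_al
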