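import Mathlib

/-! Analytic lemma: a contracting recursion gives subexponential growth. -/

namespace Pool.Agent.Work.MP_bbfbdc_al

open Filter

/-- Concavity of `t ^ β`. -/
theorem rpow_add_le_two {β : ℝ} (h0 : 0 ≤ β) (h1 : β ≤ 1) {u v : ℝ} (hu : 0 ≤ u) (hv : 0 ≤ v) :
    u ^ β + v ^ β ≤ 2 * ((u + v) / 2) ^ β := by
  have h := (Real.concaveOn_rpow h0 h1).2 (Set.mem_Ici.mpr hu) (Set.mem_Ici.mpr hv)
    (by norm_num : (0:ℝ) ≤ 1 / 2) (by norm_num : (0:ℝ) ≤ 1 / 2) (by norm_num)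
  simp only [smul_eq_mul] at h
  have h2 : 1 / 2 * u + 1 / 2 * v = (u + v) / 2 := by ring
  rw [h2] at h
  linarith

/-- The asymptotic estimate used in the induction step. -/
theorem eventually_step {β ρ c1 c2 c3 : ℝ} (h0 : 0 < β) (hρ : ρ < 1) (hc1 : 0 < c1)
    (hc2 : 0 ≤ c2) :
    ∀ᶠ x : ℝ in atTop, Real.log (c1 * x + c2) + c3 + ρ * x ^ β ≤ x ^ β := by
  have hlo : (fun x : ℝ => Real.log x) =o[atTop] fun x : ℝ => x ^ β := isLittleO_log_rpow_atTop h0
  have h1 : ∀ᶠ x : ℝ in atTop, ‖Real.log x‖ ≤ ((1 - ρ) / 4) * ‖x ^ β‖ :=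
    hlo.bound (by linarith)
  have h2 : ∀ᶠ x : ℝ in atTop, |c3| / ((1 - ρ) / 2) ≤ x ^ β :=
    (tendsto_rpow_atTop h0).eventually_ge_atTop _
  filter_upwards [h1, h2, eventually_ge_atTop (1 : ℝ), eventually_ge_atTop (c1 + c2)]
    with x hx1 hx2 hx3 hx4
  have hxpos : 0 < x := by linarith
  have h3 : Real.log (c1 * x + c2) ≤ 2 * Real.log x := by
    have h4 : c1 * x + c2 ≤ x ^ 2 := by nlinarith
    have h5 : Real.log (c1 * x + c2) ≤ Real.log (x ^ 2) :=
      Real.log_le_log (by positivity) h4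
    rw [Real.log_pow] at h5
    simpa using h5
  have h6 : 0 ≤ Real.log x := Real.log_nonneg hx3
  have h7 : 0 ≤ x ^ β := Real.rpow_nonneg hxpos.le _
  rw [Real.norm_of_nonneg h6, Real.norm_of_nonneg h7] at hx1
  rw [div_le_iff₀ (by linarith)] at hx2
  have h8 := le_abs_self c3
  nlinarith

theorem upper_of_rec (F : ℝ → ℕ) (hmono : Monotone F) (hpos : ∀ x, 0 ≤ x → 1 ≤ F x)
    (η A : ℝ) (hη0 : 0 < η) (hη1 : η < 1) (hA : 0 < A)
    (hrec : ∀ x, F x ≤ 2 * ∑ j ∈ Finset.range (⌈η * (x + A)⌉₊ + 1),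
      F j * F (η * (x + A) + 1 - j))
    (β : ℝ) (hβ0 : 0 < β) (hβ1 : β ≤ 1) (hρ : 2 * (η / 2) ^ β < 1) :
    ∃ K : ℝ, 0 < K ∧ ∀ x : ℝ, 0 ≤ x → (F x : ℝ) ≤ Real.exp (K * (x + 1) ^ β) := by
  set ρ : ℝ := 2 * (η / 2) ^ β with hρdef
  have hρ0 : 0 ≤ ρ := by positivity
  -- constants
  set c : ℝ := A + 3 / η with hc
  have hcpos : 0 < c := by positivity
  have hev := eventually_step (β := β) (ρ := ρ) (c1 := 2 * η) (c2 := 2 * (η * A + 2))
    (c3 := ρ * c ^ β) hβ0 hρ (by positivity) (by positivity)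
  have hev2 : ∀ᶠ x : ℝ in atTop, η * (x + A) + 1 ≤ x - 1 := by
    filter_upwards [eventually_ge_atTop ((η * A + 2) / (1 - η))] with x hx
    rw [div_le_iff₀ (by linarith)] at hx
    nlinarith
  obtain ⟨X0, hX0⟩ := (hev.and (hev2.and (eventually_ge_atTop (1:ℝ)))).exists_forall_of_atTop
  obtain ⟨n0, hn0⟩ := exists_nat_ge X0
  -- choice of K
  set K : ℝ := max 1 (Real.log (F (n0 : ℝ))) with hK
  have hK1 : 1 ≤ K := le_max_left _ _
  refine ⟨K, by linarith, ?_⟩
  have key : ∀ n : ℕ, n0 ≤ n → ∀ x : ℝ, 0 ≤ x → x ≤ n → (F x : ℝ) ≤ Real.exp (K * (x + 1) ^ β) := by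
    intro n hn
    induction n, hn using Nat.le_induction with
    | base =>
      intro x hx0 hxn
      have h1 : (F x : ℝ) ≤ F (n0 : ℝ) := by exact_mod_cast hmono hxn
      have h2 : (0:ℝ) < F (n0 : ℝ) := by
        have := hpos (n0 : ℝ) (by positivity)
        exact_mod_cast this
      have h3 : (F (n0:ℝ) : ℝ) ≤ Real.exp K := by
        rw [← Real.exp_log h2]
        exact Real.exp_le_exp.mpr (le_max_right _ _)
      refine h1.trans (h3.trans (Real.exp_le_exp.mpr ?_))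
      have h4 : (1:ℝ) ≤ (x + 1) ^ β := Real.one_le_rpow (by linarith) hβ0.le
      nlinarith
    | succ n hn ih =>
      intro x hx0 hxn
      by_cases hxle : x ≤ n
      · exact ih x hx0 hxle
      push Not at hxle
      have hxX : X0 ≤ x := by
        have : (n0 : ℝ) ≤ n := by exact_mod_cast hn
        linarith
      obtain ⟨e1, e2, e3⟩ := hX0 x hxX
      set M : ℝ := η * (x + A) with hM
      have hM0 : 0 < M := by positivity
      have hxn' : x ≤ (n:ℝ) + 1 := by exact_mod_cast hxn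
      have hterm : ∀ j ∈ Finset.range (⌈M⌉₊ + 1),
          (F j : ℝ) * F (M + 1 - j) ≤ Real.exp (K * (ρ * (x + c) ^ β)) := by
        intro j hj
        have hj1 : j ≤ ⌈M⌉₊ := Nat.lt_succ_iff.mp (Finset.mem_range.mp hj)
        have hj2 : (j : ℝ) < M + 1 := by
          have h1 : (j : ℝ) ≤ ⌈M⌉₊ := by exact_mod_cast hj1
          have h2 := Nat.ceil_lt_add_one hM0.le
          linarith
        have hj0 : (0:ℝ) ≤ j := Nat.cast_nonneg j
        have a1 := ih (j : ℝ) hj0 (by linarith)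
        have a2 := ih (M + 1 - j) (by linarith) (by linarith)
        have a3 := rpow_add_le_two hβ0.le hβ1 (u := (j:ℝ) + 1) (v := M + 1 - j + 1)
          (by linarith) (by linarith)
        have a4 : ((j:ℝ) + 1 + (M + 1 - j + 1)) / 2 = η / 2 * (x + c) := by
          rw [hM, hc]; field_simp; ring
        rw [a4, Real.mul_rpow (by positivity) (by positivity)] at a3
        have a5 : ((j:ℝ) + 1) ^ β + (M + 1 - j + 1) ^ β ≤ ρ * (x + c) ^ β := by
          rw [hρdef]; linarith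
        calc (F j : ℝ) * F (M + 1 - j)
            ≤ Real.exp (K * ((j:ℝ) + 1) ^ β) * Real.exp (K * (M + 1 - j + 1) ^ β) :=
              mul_le_mul a1 a2 (by positivity) (by positivity)
          _ = Real.exp (K * (((j:ℝ) + 1) ^ β + (M + 1 - j + 1) ^ β)) := by
              rw [← Real.exp_add]; ring_nf
          _ ≤ _ := Real.exp_le_exp.mpr (mul_le_mul_of_nonneg_left a5 (by linarith))
      have hsum : (F x : ℝ) ≤ 2 * ((⌈M⌉₊ + 1 : ℝ) * Real.exp (K * (ρ * (x + c) ^ β))) := by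
        have h1 : (F x : ℝ) ≤ 2 * ∑ j ∈ Finset.range (⌈M⌉₊ + 1), (F j : ℝ) * F (M + 1 - j) := by
          have := hrec x
          exact_mod_cast this
        have h2 := Finset.sum_le_card_nsmul _ _ _ hterm
        rw [Finset.card_range, nsmul_eq_mul] at h2
        push_cast at h2
        linarith
      have hceil : (⌈M⌉₊ : ℝ) + 1 ≤ M + 2 := by
        have := Nat.ceil_lt_add_one hM0.le
        linarith
      have hE : 0 < Real.exp (K * (ρ * (x + c) ^ β)) := Real.exp_pos _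
      have h3 : (F x : ℝ) ≤ (2 * (M + 2)) * Real.exp (K * (ρ * (x + c) ^ β)) := by
        nlinarith
      have h4 : 2 * (M + 2) = 2 * η * x + 2 * (η * A + 2) := by rw [hM]; ring
      rw [h4] at h3
      have h5 : (0:ℝ) < 2 * η * x + 2 * (η * A + 2) := by positivity
      rw [← Real.exp_log h5, ← Real.exp_add] at h3
      refine h3.trans (Real.exp_le_exp.mpr ?_)
      have h6 : (x + c) ^ β ≤ x ^ β + c ^ β :=
        Real.rpow_add_le_add_rpow hx0 hcpos.le hβ0.le hβ1
      have h7 : 0 ≤ Real.log (2 * η * x + 2 * (η * A + 2)) := by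
        apply Real.log_nonneg
        nlinarith [mul_pos hη0 hA, mul_nonneg hη0.le hx0]
      have h8 : x ^ β ≤ (x + 1) ^ β := Real.rpow_le_rpow hx0 (by linarith) hβ0.le
      calc Real.log (2 * η * x + 2 * (η * A + 2)) + K * (ρ * (x + c) ^ β)
          ≤ K * Real.log (2 * η * x + 2 * (η * A + 2)) + K * (ρ * (x ^ β + c ^ β)) := by
            have : K * (ρ * (x + c) ^ β) ≤ K * (ρ * (x ^ β + c ^ β)) :=
              mul_le_mul_of_nonneg_left (mul_le_mul_of_nonneg_left h6 hρ0) (by linarith)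
            nlinarith
        _ = K * (Real.log (2 * η * x + 2 * (η * A + 2)) + ρ * c ^ β + ρ * x ^ β) := by ring
        _ ≤ K * x ^ β := mul_le_mul_of_nonneg_left e1 (by linarith)
        _ ≤ K * (x + 1) ^ β := mul_le_mul_of_nonneg_left h8 (by linarith)
  intro x hx0
  obtain ⟨n, hn⟩ := exists_nat_ge x
  refine key (max n n0) (le_max_right _ _) x hx0 (hn.trans ?_)
  exact_mod_cast le_max_left _ _

end Pool.Agent.Work.MP_bbfbdc_al
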