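import Pool.Agent.Work.MP_bbfbdc_al.Weights
import Pool.Agent.Work.MP_bbfbdc_al.Lower
import Pool.Agent.Work.MP_bbfbdc_al.Upper

/-! Spheres: submultiplicativity and the final argument. -/

namespace Pool.Agent.Work.MP_bbfbdc_al

open Filter

theorem toPerm_mem (g : Gen) : g.toPerm ∈ gens := by
  cases g <;> simp [Gen.toPerm, gens]

theorem mem_gens {s : Equiv.Perm (List Bool)} (h : s ∈ gens) : ∃ g : Gen, g.toPerm = s := by
  simp only [gens, Set.mem_insert_iff, Set.mem_singleton_iff] at h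
  rcases h with h | h | h | h
  · exact ⟨.a, h.symm⟩
  · exact ⟨.b, h.symm⟩
  · exact ⟨.c, h.symm⟩
  · exact ⟨.d, h.symm⟩

theorem ev_eq_prod (l : List Gen) : ev l = (l.map Gen.toPerm).prod := by
  induction l with
  | nil => rfl
  | cons g l ih => simp [ev, ih]

theorem exists_map (l : List (Equiv.Perm (List Bool))) (h : ∀ s ∈ l, s ∈ gens) :
    ∃ m : List Gen, m.map Gen.toPerm = l := by
  induction l with
  | nil => exact ⟨[], rfl⟩
  | cons s l ih =>
    obtain ⟨m, hm⟩ := ih (fun t ht => h t (by simp [ht]))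
    obtain ⟨g, hg⟩ := mem_gens (h s (by simp))
    exact ⟨g :: m, by simp [hm, hg]⟩

theorem words_iff (g : Equiv.Perm (List Bool)) (n : ℕ) :
    (∃ l : List (Equiv.Perm (List Bool)), (∀ s ∈ l, s ∈ gens) ∧ l.prod = g ∧ l.length = n) ↔
      ∃ l : List Gen, ev l = g ∧ l.length = n := by
  constructor
  · rintro ⟨l, h1, h2, h3⟩
    obtain ⟨m, rfl⟩ := exists_map l h1
    exact ⟨m, by rw [ev_eq_prod, h2], by simpa using h3⟩
  · rintro ⟨l, h1, h2⟩
    refine ⟨l.map Gen.toPerm, ?_, ?_, by simpa using h2⟩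
    · intro s hs
      obtain ⟨g, _, rfl⟩ := List.mem_map.mp hs
      exact toPerm_mem g
    · rw [← ev_eq_prod, h1]

theorem wordLength_eq (g : Equiv.Perm (List Bool)) :
    wordLength g = sInf {n | ∃ l : List Gen, ev l = g ∧ l.length = n} := by
  unfold wordLength
  congr 1
  ext n
  exact words_iff g n

theorem wordLength_le (l : List Gen) : wordLength (ev l) ≤ l.length := by
  rw [wordLength_eq]
  exact Nat.sInf_le ⟨l, rfl, rfl⟩

theorem exists_geodesic {g : Equiv.Perm (List Bool)} (hg : g ∈ allW) :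
    ∃ l : List Gen, ev l = g ∧ l.length = wordLength g := by
  rw [wordLength_eq]
  obtain ⟨l, hl⟩ := hg
  exact Nat.sInf_mem (s := {n | ∃ l : List Gen, ev l = g ∧ l.length = n}) ⟨l.length, l, hl, rfl⟩

theorem ev_reverse (l : List Gen) : ev l.reverse = (ev l)⁻¹ := by
  induction l with
  | nil => simp [ev]
  | cons g l ih => simp [ev_append, ev, ih, toPerm_inv]

theorem mem_Grig {g : Equiv.Perm (List Bool)} : g ∈ Grig ↔ g ∈ allW := by
  constructor
  · intro h
    refine Subgroup.closure_induction (p := fun x _ => x ∈ allW) ?_ ?_ ?_ ?_ h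
    · intro x hx
      obtain ⟨g, rfl⟩ := mem_gens hx
      exact ⟨[g], by simp [ev]⟩
    · exact ⟨[], rfl⟩
    · rintro x y _ _ ⟨l, rfl⟩ ⟨m, rfl⟩
      exact ⟨l ++ m, ev_append l m⟩
    · rintro x _ ⟨l, rfl⟩
      exact ⟨l.reverse, ev_reverse l⟩
  · rintro ⟨l, rfl⟩
    induction l with
    | nil => exact Subgroup.one_mem _
    | cons g l ih =>
      exact Subgroup.mul_mem _ (Subgroup.subset_closure (toPerm_mem g)) ih

/-- The sphere of radius `n`. -/
def sphere (n : ℕ) : Set (Equiv.Perm (List Bool)) := {g | g ∈ Grig ∧ wordLength g = n}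

theorem sphGrowth_eq (n : ℕ) : sphGrowth n = (sphere n).ncard := rfl

theorem uball_eq (n : ℕ) : uball n = {g | g ∈ Grig ∧ wordLength g ≤ n} := by
  ext g
  constructor
  · rintro ⟨l, rfl, hl⟩
    exact ⟨mem_Grig.mpr ⟨l, rfl⟩, (wordLength_le l).trans hl⟩
  · rintro ⟨h1, h2⟩
    obtain ⟨l, hl, hl2⟩ := exists_geodesic (mem_Grig.mp h1)
    exact ⟨l, hl, hl2 ▸ h2⟩

theorem sphere_finite (n : ℕ) : (sphere n).Finite := by
  refine (uball_finite n).subset ?_
  rw [uball_eq]
  rintro g ⟨h1, h2⟩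
  exact ⟨h1, h2.le⟩

theorem sph_sub (m k : ℕ) : sphGrowth (m + k) ≤ sphGrowth m * sphGrowth k := by
  classical
  have hw : ∀ g ∈ sphere (m + k), ∃ l : List Gen, ev l = g ∧ l.length = m + k := by
    rintro g ⟨h1, h2⟩
    obtain ⟨l, hl, hl2⟩ := exists_geodesic (mem_Grig.mp h1)
    exact ⟨l, hl, hl2.trans h2⟩
  choose! w hw1 hw2 using hw
  let f : Equiv.Perm (List Bool) → Equiv.Perm (List Bool) × Equiv.Perm (List Bool) :=
    fun g => (ev ((w g).take m), ev ((w g).drop m))
  have hprod : ∀ g ∈ sphere (m + k), ev ((w g).take m) * ev ((w g).drop m) = g := by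
    intro g hg
    rw [← ev_append, List.take_append_drop, hw1 g hg]
  have hmaps : Set.MapsTo f (sphere (m + k)) (sphere m ×ˢ sphere k) := by
    intro g hg
    have h1 := wordLength_le ((w g).take m)
    have h2 := wordLength_le ((w g).drop m)
    rw [List.length_take, hw2 g hg, Nat.min_eq_left (by omega)] at h1
    rw [List.length_drop, hw2 g hg, Nat.add_sub_cancel_left] at h2
    obtain ⟨u, hu1, hu2⟩ := exists_geodesic (g := ev ((w g).take m)) ⟨_, rfl⟩
    obtain ⟨v, hv1, hv2⟩ := exists_geodesic (g := ev ((w g).drop m)) ⟨_, rfl⟩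
    have h3 : wordLength g ≤ u.length + v.length := by
      have := wordLength_le (u ++ v)
      rw [ev_append, hu1, hv1, hprod g hg, List.length_append] at this
      exact this
    rw [hg.2] at h3
    refine ⟨⟨mem_Grig.mpr ⟨_, rfl⟩, ?_⟩, ⟨mem_Grig.mpr ⟨_, rfl⟩, ?_⟩⟩
    · simp only [f]; omega
    · simp only [f]; omega
  have hinj : Set.InjOn f (sphere (m + k)) := by
    intro g hg g' hg' h
    simp only [f, Prod.mk.injEq] at h
    rw [← hprod g hg, ← hprod g' hg', h.1, h.2]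
  have := Set.ncard_le_ncard_of_injOn f hmaps hinj ((sphere_finite m).prod (sphere_finite k))
  rwa [Set.ncard_prod] at this

theorem gam_eq_sum (n : ℕ) : gam n = ∑ i ∈ Finset.range (n + 1), sphGrowth i := by
  induction n with
  | zero =>
    rw [gam, uball_eq, Finset.sum_range_one, sphGrowth_eq]
    congr 1
    ext g
    simp [sphere]
  | succ n ih =>
    rw [Finset.sum_range_succ, ← ih, gam, gam, sphGrowth_eq,
      ← Set.ncard_union_eq ?_ (uball_finite n) (sphere_finite (n + 1))]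
    · congr 1
      rw [uball_eq, uball_eq]
      ext g
      simp only [Set.mem_ofPred_eq, Set.mem_union, sphere]
      constructor
      · rintro ⟨h1, h2⟩
        rcases Nat.lt_or_ge n (wordLength g) with h | h
        · right; exact ⟨h1, by omega⟩
        · left; exact ⟨h1, h⟩
      · rintro (⟨h1, h2⟩ | ⟨h1, h2⟩)
        · exact ⟨h1, by omega⟩
        · exact ⟨h1, by omega⟩
    · rw [uball_eq, Set.disjoint_left]
      rintro g ⟨_, h1⟩ ⟨_, h2⟩
      omega

/-- Unweighted balls sit in weighted balls. -/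
theorem gam_le_N (P : Weights) (Wm : ℝ) (hW : ∀ g, P.W g ≤ Wm) (n : ℕ) : gam n ≤ P.N (Wm * n) := by
  have hW0 : 0 ≤ Wm := (P.pos .a).le.trans (hW .a)
  refine Set.ncard_le_ncard ?_ (P.ball_finite _)
  rintro g ⟨l, hl, hn⟩
  refine ⟨l, hl, ?_⟩
  have h1 : ∀ l : List Gen, P.wt l ≤ Wm * l.length := by
    intro l
    induction l with
    | nil => simp [Weights.wt]
    | cons g l ih =>
      have := hW g
      simp only [Weights.wt, List.length_cons, Nat.cast_add, Nat.cast_one]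
      linarith
  refine (h1 l).trans (mul_le_mul_of_nonneg_left ?_ hW0)
  exact_mod_cast hn

theorem sub_pow {s : ℕ → ℕ} (hs : ∀ m k, s (m + k) ≤ s m * s k) (k r : ℕ) :
    ∀ q, s (k * q + r) ≤ s k ^ q * s r := by
  intro q
  induction q with
  | zero => simp
  | succ q ih =>
    have h1 : k * (q + 1) + r = k + (k * q + r) := by ring
    rw [h1, pow_succ']
    calc s (k + (k * q + r)) ≤ s k * s (k * q + r) := hs _ _
      _ ≤ s k * (s k ^ q * s r) := Nat.mul_le_mul_left _ ih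
      _ = s k * s k ^ q * s r := by ring

/-- The analytic core: ball bounds of the form `exp (c sqrt n)` and `exp (K (W n + 1) ^ β)` with
`β < 1` and submultiplicative spheres give large spheres. -/
theorem spheres_large {s γ : ℕ → ℕ} (hs : ∀ m k, s (m + k) ≤ s m * s k)
    (hγ : ∀ n, γ n = ∑ i ∈ Finset.range (n + 1), s i)
    {c : ℝ} (hc : 0 < c) {n1 : ℕ} (hlow : ∀ n : ℕ, n1 ≤ n → Real.exp (c * Real.sqrt n) ≤ γ n)
    {K W β : ℝ} (hK : 0 < K) (hW : 0 ≤ W) (hβ : 0 < β)
    (hup : ∀ n : ℕ, (γ n : ℝ) ≤ Real.exp (K * (W * n + 1) ^ β))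
    {α θ : ℝ} (hα : 0 < α) (hβθ : β < θ) (hθα : θ < 1 - α) :
    ∀ᶠ k : ℕ in atTop, Real.exp ((k:ℝ) ^ α) ≤ s k := by
  have hθ0 : 0 < θ := hβ.trans hβθ
  have hθ1 : θ < 1 := by linarith
  -- eventual estimates
  have e1 : ∀ᶠ x : ℝ in atTop, ‖Real.log x‖ ≤ (c / 48) * ‖x ^ θ‖ :=
    (isLittleO_log_rpow_atTop hθ0).bound (by positivity)
  have e2 : ∀ᶠ x : ℝ in atTop, x ^ (-(1 - α - θ)) < c / 16 :=
    (tendsto_rpow_neg_atTop (by linarith : 0 < 1 - α - θ)).eventually_lt_const (by positivity)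
  have e3 : ∀ᶠ x : ℝ in atTop, x ^ (-(θ - β)) < c / (16 * (K * (W + 1) ^ β)) :=
    (tendsto_rpow_neg_atTop (by linarith : 0 < θ - β)).eventually_lt_const (by positivity)
  have e4 : ∀ᶠ x : ℝ in atTop, (n1:ℝ) + 2 ≤ x ^ (2 * θ) :=
    (tendsto_rpow_atTop (by positivity : 0 < 2 * θ)).eventually_ge_atTop _
  have e5 : ∀ᶠ x : ℝ in atTop, (2:ℝ) ≤ x := eventually_ge_atTop 2
  have hall := (e1.and (e2.and (e3.and (e4.and e5))))
  filter_upwards [tendsto_natCast_atTop_atTop.eventually hall] with k hk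
  obtain ⟨h1, h2, h3, h4, h5⟩ := hk
  set x : ℝ := (k:ℝ) with hx
  have hx0 : 0 < x := by linarith
  have hk0 : 0 < k := by
    have : (0:ℝ) < k := hx0
    exact_mod_cast this
  by_contra hcon
  push Not at hcon
  set n : ℕ := ⌊x ^ (2 * θ)⌋₊ with hn
  have hxθ : 0 < x ^ (2 * θ) := Real.rpow_pos_of_pos hx0 _
  have hn_le : (n:ℝ) ≤ x ^ (2 * θ) := Nat.floor_le hxθ.le
  have hn_ge : x ^ (2 * θ) - 1 < n := by
    have := Nat.lt_floor_add_one (x ^ (2 * θ))
    linarith
  have hn1 : n1 ≤ n := by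
    have : (n1:ℝ) < n := by linarith
    exact_mod_cast this.le
  -- bound for each sphere
  have hsphere : ∀ m ∈ Finset.range (n + 1), (s m : ℝ) ≤ Real.exp (n * x ^ (α - 1)) * γ k := by
    intro m hm
    have hmn : m ≤ n := Nat.lt_succ_iff.mp (Finset.mem_range.mp hm)
    have a1 := sub_pow hs k (m % k) (m / k)
    rw [Nat.div_add_mod] at a1
    have a2 : s (m % k) ≤ γ k := by
      rw [hγ]
      refine Finset.single_le_sum (f := s) (fun _ _ => Nat.zero_le _) ?_
      exact Finset.mem_range.mpr (Nat.lt_succ_of_lt (Nat.mod_lt _ hk0))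
    have a3 : ((s k : ℝ)) ^ (m / k) ≤ Real.exp (n * x ^ (α - 1)) := by
      calc (s k : ℝ) ^ (m / k) ≤ (Real.exp (x ^ α)) ^ (m / k) :=
            pow_le_pow_left₀ (Nat.cast_nonneg _) hcon.le _
        _ = Real.exp (((m / k : ℕ) : ℝ) * x ^ α) := by rw [← Real.exp_nat_mul]
        _ ≤ Real.exp (n * x ^ (α - 1)) := by
          apply Real.exp_le_exp.mpr
          have b1 : ((m / k : ℕ) : ℝ) ≤ (n:ℝ) / x := by
            refine (Nat.cast_div_le).trans ?_
            exact div_le_div_of_nonneg_right (by exact_mod_cast hmn) hx0.le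
          have b2 : 0 ≤ x ^ α := Real.rpow_nonneg hx0.le _
          calc ((m / k : ℕ) : ℝ) * x ^ α ≤ (n:ℝ) / x * x ^ α := mul_le_mul_of_nonneg_right b1 b2
            _ = n * x ^ (α - 1) := by
              rw [Real.rpow_sub_one hx0.ne']; ring
    calc (s m : ℝ) ≤ ((s k : ℝ)) ^ (m / k) * s (m % k) := by exact_mod_cast a1
      _ ≤ Real.exp (n * x ^ (α - 1)) * γ k :=
        mul_le_mul a3 (by exact_mod_cast a2) (Nat.cast_nonneg _) (Real.exp_pos _).le
  have hγn : (γ n : ℝ) ≤ (n + 1) * (Real.exp (n * x ^ (α - 1)) * γ k) := by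
    have a1 := Finset.sum_le_card_nsmul _ _ _ hsphere
    rw [Finset.card_range, nsmul_eq_mul] at a1
    rw [hγ]
    push_cast at a1 ⊢
    exact a1
  have hchain : Real.exp (c * Real.sqrt n) ≤
      Real.exp (Real.log (n + 1) + (n * x ^ (α - 1) + K * (W * x + 1) ^ β)) := by
    rw [Real.exp_add, Real.exp_add, Real.exp_log (by positivity)]
    refine (hlow n hn1).trans (hγn.trans ?_)
    refine mul_le_mul_of_nonneg_left ?_ (by positivity)
    exact mul_le_mul_of_nonneg_left (hup k) (Real.exp_pos _).le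
  have hfin := Real.exp_le_exp.mp hchain
  -- estimates
  have hxth : 0 < x ^ θ := Real.rpow_pos_of_pos hx0 _
  have f1 : x ^ θ / 2 ≤ Real.sqrt n := by
    rw [show x ^ θ / 2 = Real.sqrt ((x ^ θ / 2) ^ 2) from (Real.sqrt_sq (by positivity)).symm]
    apply Real.sqrt_le_sqrt
    have g1 : (x ^ θ) ^ 2 = x ^ (2 * θ) := by
      rw [← Real.rpow_natCast, ← Real.rpow_mul hx0.le]; congr 1; push_cast; ring
    rw [div_pow, g1]
    have g2 : (0:ℝ) ≤ n1 := Nat.cast_nonneg _
    linarith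
  have f2 : Real.log (n + 1) ≤ (c / 16) * x ^ θ := by
    have g1 : (n:ℝ) + 1 ≤ x ^ 3 := by
      have g2 : x ^ (2 * θ) ≤ x ^ (2:ℝ) :=
        Real.rpow_le_rpow_of_exponent_le (by linarith) (by linarith)
      rw [Real.rpow_two] at g2
      nlinarith
    have g3 : Real.log (n + 1) ≤ 3 * Real.log x := by
      calc Real.log (n + 1) ≤ Real.log (x ^ 3) := Real.log_le_log (by positivity) g1
        _ = 3 * Real.log x := by rw [Real.log_pow]; norm_num
    have g4 : 0 ≤ Real.log x := Real.log_nonneg (by linarith)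
    rw [Real.norm_of_nonneg g4, Real.norm_of_nonneg hxth.le] at h1
    linarith
  have f3 : (n:ℝ) * x ^ (α - 1) ≤ (c / 16) * x ^ θ := by
    have g1 : (n:ℝ) * x ^ (α - 1) ≤ x ^ (2 * θ) * x ^ (α - 1) :=
      mul_le_mul_of_nonneg_right hn_le (Real.rpow_nonneg hx0.le _)
    have g2 : x ^ (2 * θ) * x ^ (α - 1) = x ^ (-(1 - α - θ)) * x ^ θ := by
      rw [← Real.rpow_add hx0, ← Real.rpow_add hx0]; congr 1; ring
    rw [g2] at g1
    exact g1.trans (mul_le_mul_of_nonneg_right h2.le hxth.le)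
  have f4 : K * (W * x + 1) ^ β ≤ (c / 16) * x ^ θ := by
    have g0 : 0 < K * (W + 1) ^ β := by positivity
    have g1 : (W * x + 1) ^ β ≤ (W + 1) ^ β * x ^ β := by
      rw [← Real.mul_rpow (by positivity) hx0.le]
      refine Real.rpow_le_rpow (by positivity) ?_ hβ.le
      nlinarith
    have g2 : x ^ β = x ^ (-(θ - β)) * x ^ θ := by
      rw [← Real.rpow_add hx0]; congr 1; ring
    calc K * (W * x + 1) ^ β ≤ K * ((W + 1) ^ β * x ^ β) := mul_le_mul_of_nonneg_left g1 hK.le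
      _ = (K * (W + 1) ^ β * x ^ (-(θ - β))) * x ^ θ := by rw [g2]; ring
      _ ≤ (c / 16) * x ^ θ := by
        refine mul_le_mul_of_nonneg_right ?_ hxth.le
        rw [lt_div_iff₀ (by positivity)] at h3
        nlinarith
  have f5 : c * (x ^ θ / 2) ≤ c * Real.sqrt n := mul_le_mul_of_nonneg_left f1 hc.le
  nlinarith [mul_pos hc hxth]

end Pool.Agent.Work.MP_bbfbdc_al
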