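import Pool.Agent.Work.MP_bbfbdc_al.Words

/-! Weighted lengths and the contraction inequality. -/

namespace Pool.Agent.Work.MP_bbfbdc_al

/-- Admissible weights with contraction factor `η`. -/
structure Weights where
  W : Gen → ℝ
  η : ℝ
  pos : ∀ g, 0 < W g
  hη : 0 < η
  hb : W .a + W .c ≤ η * (W .a + W .b)
  hc : W .a + W .d ≤ η * (W .a + W .c)
  hd : W .b ≤ η * (W .a + W .d)
  tb : W .b ≤ W .c + W .d
  tc : W .c ≤ W .b + W .d
  td : W .d ≤ W .b + W .c

namespace Weights

variable (P : Weights)

/-- Weight of a word. -/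
def wt : List Gen → ℝ
  | [] => 0
  | g :: l => P.W g + wt l

theorem wt_nonneg (l : List Gen) : 0 ≤ P.wt l := by
  induction l with
  | nil => simp [wt]
  | cons g l ih => have := P.pos g; simp only [wt]; linarith

theorem wt_append (l m : List Gen) : P.wt (l ++ m) = P.wt l + P.wt m := by
  induction l with
  | nil => simp [wt]
  | cons g l ih => simp only [List.cons_append, wt, ih]; ring

theorem third_le (g h : Gen) (hg : g ≠ .a) (hh : h ≠ .a) (hgh : g ≠ h) :
    P.W (third g h) ≤ P.W g + P.W h := by
  have h1 := P.tb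
  have h2 := P.tc
  have h3 := P.td
  cases g <;> cases h <;> simp_all [third] <;> linarith

theorem wt_push (g : Gen) (l : List Gen) : P.wt (push g l) ≤ P.W g + P.wt l := by
  cases l with
  | nil => simp [push, wt]
  | cons h l =>
    simp only [push]
    split_ifs with h1 h2
    · simp only [wt]
      have := P.pos g
      have := P.pos h
      linarith
    · simp [wt]
    · push Not at h2
      simp only [wt]
      have := P.third_le g h h2.1 h2.2 h1
      linarith

theorem wt_nf (l : List Gen) : P.wt (nf l) ≤ P.wt l := by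
  induction l with
  | nil => simp [nf]
  | cons g l ih =>
    simp only [nf, wt]
    have := P.wt_push g (nf l)
    linarith

/-- Sum over the letters other than `a` of `W a + W g`. -/
def star : List Gen → ℝ
  | [] => 0
  | .a :: l => star l
  | .b :: l => P.W .a + P.W .b + star l
  | .c :: l => P.W .a + P.W .c + star l
  | .d :: l => P.W .a + P.W .d + star l

theorem sec_le (l : List Gen) :
    P.wt (sec l false) + P.wt (sec l true) ≤ P.η * P.star l := by
  induction l with
  | nil => simp [sec, wt, star]
  | cons g l ih =>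
    have hb := P.hb
    have hc := P.hc
    have hd := P.hd
    simp only [sec, wt_append]
    cases g <;> cases par l <;> simp [secG, wt, star] <;> nlinarith

theorem star_le (l : List Gen) (hl : Alt l) :
    P.star l ≤ P.wt l + P.W .a ∧ (∀ m, l = .a :: m → P.star l ≤ P.wt l) := by
  induction l with
  | nil =>
    refine ⟨?_, fun m hm => by simp at hm⟩
    simp [star, wt, (P.pos .a).le]
  | cons g l ih =>
    obtain ⟨h1, h2⟩ := ih hl.tail
    by_cases hg : g = .a
    · subst hg
      simp only [star, wt]
      refine ⟨?_, fun m _ => ?_⟩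
      · have := P.pos .a
        linarith
      · linarith
    · have h3 : P.star (g :: l) = P.W .a + P.W g + P.star l := by
        cases g <;> simp [star] at hg ⊢
      refine ⟨?_, fun m hm => absurd (List.cons_eq_cons.mp hm).1 hg⟩
      rw [h3]
      simp only [wt]
      cases l with
      | nil => simp [star, wt, add_comm]
      | cons h l =>
        have h4 : h = .a := by
          by_contra h5
          exact hg (hl.1.mpr h5)
        subst h4
        have := h2 l rfl
        linarith

/-- The contraction inequality. -/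
theorem contraction (l : List Gen) (hl : Alt l) :
    P.wt (sec l false) + P.wt (sec l true) ≤ P.η * (P.wt l + P.W .a) :=
  (P.sec_le l).trans (mul_le_mul_of_nonneg_left (P.star_le l hl).1 P.hη.le)

/-- Weighted balls. -/
def ball (x : ℝ) : Set (Equiv.Perm (List Bool)) := {g | ∃ l, ev l = g ∧ P.wt l ≤ x}

/-- The smallest weight. -/
noncomputable def wmin : ℝ := min (min (P.W .a) (P.W .b)) (min (P.W .c) (P.W .d))

theorem wmin_pos : 0 < P.wmin := by
  unfold wmin
  exact lt_min (lt_min (P.pos _) (P.pos _)) (lt_min (P.pos _) (P.pos _))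

theorem wmin_le (g : Gen) : P.wmin ≤ P.W g := by
  unfold wmin
  cases g <;> simp

theorem length_le (l : List Gen) : (l.length : ℝ) * P.wmin ≤ P.wt l := by
  induction l with
  | nil => simp [wt]
  | cons g l ih =>
    simp only [List.length_cons, wt, Nat.cast_add, Nat.cast_one]
    have := P.wmin_le g
    linarith

theorem ball_finite (x : ℝ) : (P.ball x).Finite := by
  obtain ⟨n, hn⟩ := exists_nat_gt (x / P.wmin)
  have h1 : {l : List Gen | l.length ≤ n}.Finite := List.finite_length_le Gen n
  refine (h1.image ev).subset ?_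
  rintro g ⟨l, hl, hx⟩
  refine ⟨l, ?_, hl⟩
  have h2 := P.length_le l
  have h3 : (l.length : ℝ) * P.wmin ≤ x := h2.trans hx
  have h4 : (l.length : ℝ) ≤ x / P.wmin := (le_div_iff₀ P.wmin_pos).mpr h3
  have h5 : (l.length : ℝ) < n := lt_of_le_of_lt h4 hn
  exact_mod_cast h5.le

theorem ball_mono {x y : ℝ} (h : x ≤ y) : P.ball x ⊆ P.ball y := by
  rintro g ⟨l, hl, hx⟩
  exact ⟨l, hl, hx.trans h⟩

/-- Size of the weighted ball. -/
noncomputable def N (x : ℝ) : ℕ := (P.ball x).ncard

theorem N_mono {x y : ℝ} (h : x ≤ y) : P.N x ≤ P.N y :=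
  Set.ncard_le_ncard (P.ball_mono h) (P.ball_finite y)

theorem N_pos {x : ℝ} (h : 0 ≤ x) : 1 ≤ P.N x := by
  have h1 : (1 : Equiv.Perm (List Bool)) ∈ P.ball x := ⟨[], rfl, by simpa [wt] using h⟩
  exact (Set.ncard_pos (P.ball_finite x)).mpr ⟨_, h1⟩

/-- The recursive inequality for ball sizes. -/
theorem N_rec (x : ℝ) (M : ℝ) (hM : M = P.η * (x + P.W .a)) :
    P.N x ≤ 2 * ∑ j ∈ Finset.range (⌈M⌉₊ + 1), P.N j * P.N (M + 1 - j) := by
  classical
  have hw : ∀ g ∈ P.ball x, ∃ l, ev l = g ∧ P.wt l ≤ x ∧ Alt l := by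
    rintro g ⟨l, hl, hx⟩
    exact ⟨nf l, by rw [ev_nf, hl], (P.wt_nf l).trans hx, alt_nf l⟩
  choose! w hw1 hw2 hw3 using hw
  let f : Equiv.Perm (List Bool) → Bool × (Equiv.Perm (List Bool) × Equiv.Perm (List Bool)) :=
    fun g => (par (w g), (ev (sec (w g) false), ev (sec (w g) true)))
  let Bf : ℝ → Finset (Equiv.Perm (List Bool)) := fun y => (P.ball_finite y).toFinset
  have hcard : ∀ y, (Bf y).card = P.N y := fun y => (Set.ncard_eq_toFinset_card _ _).symm
  have hmaps : Set.MapsTo f ((Bf x : Finset _) : Set (Equiv.Perm (List Bool)))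
      (((Finset.univ : Finset Bool) ×ˢ ((Finset.range (⌈M⌉₊ + 1)).biUnion
        fun j => Bf j ×ˢ Bf (M + 1 - j)) : Finset _) : Set _) := by
    intro g hg
    have hg' : g ∈ P.ball x := by simpa [Bf] using hg
    have h1 := P.contraction (w g) (hw3 g hg')
    have h2 := hw2 g hg'
    have h3 : P.wt (sec (w g) false) + P.wt (sec (w g) true) ≤ M := by
      rw [hM]
      refine h1.trans (mul_le_mul_of_nonneg_left (by linarith) P.hη.le)
    have h4 := P.wt_nonneg (sec (w g) false)
    have h5 := P.wt_nonneg (sec (w g) true)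
    simp only [Finset.coe_product, Finset.coe_univ, Set.mem_prod, Set.mem_univ, true_and,
      Finset.coe_biUnion, Set.mem_iUnion]
    refine ⟨⌈P.wt (sec (w g) false)⌉₊, ?_, ?_⟩
    · simp only [Finset.coe_range, Set.mem_Iio]
      exact Nat.lt_succ_of_le (Nat.ceil_mono (by linarith))
    · simp only [Bf, Finset.mem_coe, Set.Finite.mem_toFinset]
      refine ⟨⟨_, rfl, Nat.le_ceil _⟩, ⟨_, rfl, ?_⟩⟩
      have := Nat.ceil_lt_add_one h4
      linarith
  have hinj : Set.InjOn f ((Bf x : Finset _) : Set (Equiv.Perm (List Bool))) := by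
    intro g hg g' hg' hfg
    have hg1 : g ∈ P.ball x := by simpa [Bf] using hg
    have hg1' : g' ∈ P.ball x := by simpa [Bf] using hg'
    simp only [f, Prod.mk.injEq] at hfg
    rw [← hw1 g hg1, ← hw1 g' hg1']
    exact ev_ext hfg.1 hfg.2.1 hfg.2.2
  have h1 := Finset.card_le_card_of_injOn f hmaps hinj
  rw [hcard, Finset.card_product, Finset.card_univ, Fintype.card_bool] at h1
  refine h1.trans (Nat.mul_le_mul_left 2 ?_)
  refine Finset.card_biUnion_le.trans (Finset.sum_le_sum fun j _ => ?_)
  rw [Finset.card_product, hcard, hcard]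

end Weights

end Pool.Agent.Work.MP_bbfbdc_al
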