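import Pool.Agent.Work.MP_bbfbdc_al.Defs

/-! Words in the four letters, sections, normal forms. -/

namespace Pool.Agent.Work.MP_bbfbdc_al

/-- The four letters. -/
inductive Gen
  | a | b | c | d
  deriving DecidableEq, Fintype

/-- The permutation named by a letter. -/
def Gen.toPerm : Gen → Equiv.Perm (List Bool)
  | .a => genA
  | .b => genB
  | .c => genC
  | .d => genD

/-- Evaluation of a word. -/
def ev : List Gen → Equiv.Perm (List Bool)
  | [] => 1
  | g :: l => g.toPerm * ev l

theorem ev_append (l m : List Gen) : ev (l ++ m) = ev l * ev m := by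
  induction l with
  | nil => simp [ev]
  | cons g l ih => simp [ev, ih, mul_assoc]

theorem ev_nil : ev [] = 1 := rfl
theorem ev_cons (g : Gen) (l : List Gen) : ev (g :: l) = g.toPerm * ev l := rfl

/-- Parity of the number of letters `a`. -/
def par : List Gen → Bool
  | [] => false
  | .a :: l => !(par l)
  | .b :: l => par l
  | .c :: l => par l
  | .d :: l => par l

theorem par_append (l m : List Gen) : par (l ++ m) = xor (par l) (par m) := by
  induction l with
  | nil => simp [par]
  | cons g l ih => cases g <;> simp [par, ih]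

/-- Sections of the letters. -/
def secG : Gen → Bool → List Gen
  | .a, _ => []
  | .b, false => [.a]
  | .b, true => [.c]
  | .c, false => [.a]
  | .c, true => [.d]
  | .d, false => []
  | .d, true => [.b]

/-- Sections of a word. -/
def sec : List Gen → Bool → List Gen
  | [], _ => []
  | g :: l, i => secG g (xor (par l) i) ++ sec l i

theorem toPerm_cons (g : Gen) (i : Bool) (v : List Bool) :
    g.toPerm (i :: v) = (xor (par [g]) i) :: ev (secG g i) v := by
  cases g <;> cases i <;>
    simp [Gen.toPerm, par, secG, ev, genA, genB, genC, genD, aFun, bFun, cFun, dFun]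

theorem toPerm_nil (g : Gen) : g.toPerm [] = [] := by
  cases g <;> simp [Gen.toPerm, genA, genB, genC, genD, aFun, bFun, cFun, dFun]

theorem ev_apply_nil (l : List Gen) : ev l [] = [] := by
  induction l with
  | nil => rfl
  | cons g l ih => simp [ev, ih, toPerm_nil]

theorem ev_apply_cons (l : List Gen) (i : Bool) (v : List Bool) :
    ev l (i :: v) = (xor (par l) i) :: ev (sec l i) v := by
  induction l with
  | nil => simp [ev, par, sec]
  | cons g l ih =>
    rw [ev_cons, Equiv.Perm.mul_apply, ih, toPerm_cons, sec, ev_append, Equiv.Perm.mul_apply]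
    congr 1
    have : par (g :: l) = xor (par [g]) (par l) := by
      rw [show g :: l = [g] ++ l from rfl, par_append]
    rw [this, Bool.xor_assoc]

theorem sec_append (l m : List Gen) (i : Bool) :
    sec (l ++ m) i = sec l (xor (par m) i) ++ sec m i := by
  induction l with
  | nil => simp [sec]
  | cons g l ih =>
    simp only [List.cons_append, sec, ih, par_append, List.append_assoc, Bool.xor_assoc]

/-- An element given by a word is determined by the parity and the two sections. -/
theorem ev_ext {l m : List Gen} (hp : par l = par m)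
    (h0 : ev (sec l false) = ev (sec m false)) (h1 : ev (sec l true) = ev (sec m true)) :
    ev l = ev m := by
  ext v : 1
  cases v with
  | nil => rw [ev_apply_nil, ev_apply_nil]
  | cons i v =>
    rw [ev_apply_cons, ev_apply_cons, hp]
    cases i
    · rw [h0]
    · rw [h1]

theorem par_eq_of_ev_eq {l m : List Gen} (h : ev l = ev m) : par l = par m := by
  have h1 : ev l [false] = ev m [false] := by rw [h]
  rw [ev_apply_cons, ev_apply_cons] at h1
  simpa using (List.cons_eq_cons.mp h1).1

theorem sec_eq_of_ev_eq {l m : List Gen} (h : ev l = ev m) (i : Bool) :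
    ev (sec l i) = ev (sec m i) := by
  ext v : 1
  have h1 : ev l (i :: v) = ev m (i :: v) := by rw [h]
  rw [ev_apply_cons, ev_apply_cons] at h1
  exact (List.cons_eq_cons.mp h1).2

/-! Relations among the letters `b, c, d`. -/

theorem bcd_rel : ∀ v : List Bool,
    (bFun (cFun v) = dFun v ∧ cFun (bFun v) = dFun v) ∧
    (cFun (dFun v) = bFun v ∧ dFun (cFun v) = bFun v) ∧
    (dFun (bFun v) = cFun v ∧ bFun (dFun v) = cFun v)
  | [] => by simp [bFun, cFun, dFun]
  | x :: w => by
      obtain ⟨⟨h1, h2⟩, ⟨h3, h4⟩, ⟨h5, h6⟩⟩ := bcd_rel w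
      cases x <;> simp [bFun, cFun, dFun, aFun_aFun, h1, h2, h3, h4, h5, h6]

theorem toPerm_mul_self (g : Gen) : g.toPerm * g.toPerm = 1 := by
  ext v : 1
  cases g
  · exact aFun_aFun v
  · exact (bcd_invol v).1
  · exact (bcd_invol v).2.1
  · exact (bcd_invol v).2.2

theorem toPerm_inv (g : Gen) : g.toPerm⁻¹ = g.toPerm :=
  inv_eq_of_mul_eq_one_left (toPerm_mul_self g)

/-- The third letter (for two different letters among `b, c, d`). -/
def third : Gen → Gen → Gen
  | .b, .c => .d
  | .c, .b => .d
  | .b, .d => .c
  | .d, .b => .c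
  | .c, .d => .b
  | .d, .c => .b
  | g, _ => g

theorem toPerm_mul_third (g h : Gen) (hg : g ≠ .a) (hh : h ≠ .a) (hgh : g ≠ h) :
    g.toPerm * h.toPerm = (third g h).toPerm := by
  ext v : 1
  cases g <;> cases h <;> simp_all [third] <;>
    first
    | exact (bcd_rel v).1.1
    | exact (bcd_rel v).1.2
    | exact (bcd_rel v).2.1.1
    | exact (bcd_rel v).2.1.2
    | exact (bcd_rel v).2.2.1
    | exact (bcd_rel v).2.2.2

/-- Multiply a normal form by a letter on the left. -/
def push (g : Gen) : List Gen → List Gen
  | [] => [g]
  | h :: l =>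
    if g = h then l
    else if g = .a ∨ h = .a then g :: h :: l
    else third g h :: l

/-- Alternation of the letter `a` with letters from `b, c, d`. -/
def Alt : List Gen → Prop
  | [] => True
  | [_] => True
  | g :: h :: l => (g = .a ↔ h ≠ .a) ∧ Alt (h :: l)

theorem Alt.tail {g : Gen} {l : List Gen} (h : Alt (g :: l)) : Alt l := by
  cases l with
  | nil => trivial
  | cons x l => exact h.2

theorem ev_push (g : Gen) (l : List Gen) : ev (push g l) = g.toPerm * ev l := by
  cases l with
  | nil => rfl
  | cons h l =>
    simp only [push]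
    split_ifs with h1 h2
    · subst h1
      rw [ev_cons, ← mul_assoc, toPerm_mul_self, one_mul]
    · rfl
    · push Not at h2
      rw [ev_cons, ev_cons, ← mul_assoc, toPerm_mul_third g h h2.1 h2.2 h1]

theorem third_ne_a (g h : Gen) (hg : g ≠ .a) (hh : h ≠ .a) : third g h ≠ .a := by
  cases g <;> cases h <;> simp_all [third]

theorem alt_push (g : Gen) (l : List Gen) (hl : Alt l) : Alt (push g l) := by
  cases l with
  | nil => trivial
  | cons h l =>
    simp only [push]
    split_ifs with h1 h2
    · exact hl.tail
    · refine ⟨?_, hl⟩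
      rcases h2 with h2 | h2
      · subst h2
        exact ⟨fun _ h3 => h1 h3.symm, fun _ => rfl⟩
      · subst h2
        exact ⟨fun h3 => absurd h3 h1, fun h3 => absurd rfl h3⟩
    · push Not at h2
      cases l with
      | nil => trivial
      | cons x l =>
        obtain ⟨h3, h4⟩ := hl
        refine ⟨?_, h4⟩
        have h5 : ¬ (x ≠ Gen.a) := fun h6 => h2.2 (h3.mpr h6)
        exact ⟨fun h6 => absurd h6 (third_ne_a g h h2.1 h2.2), fun h6 => absurd h6 h5⟩

/-- Normal form of a word. -/
def nf : List Gen → List Gen
  | [] => []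
  | g :: l => push g (nf l)

theorem ev_nf (l : List Gen) : ev (nf l) = ev l := by
  induction l with
  | nil => rfl
  | cons g l ih => rw [nf, ev_push, ih, ev_cons]

theorem alt_nf (l : List Gen) : Alt (nf l) := by
  induction l with
  | nil => trivial
  | cons g l ih => exact alt_push g _ ih

end Pool.Agent.Work.MP_bbfbdc_al
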